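import Mathlib

/-!
Spaces with a 1-unconditional basis: the key lemma for the countable weak pi-base of the ball.
-/

set_option autoImplicit false

open Filter Topology Metric

namespace Pool.Agent.N311.PiB

/-- Choice of signs: the square function bound. -/
theorem exists_signs {J : Type*} (s : Finset J) (t : Finset ℕ) (x : ℕ → J → ℝ) :
    ∃ θ : ℕ → ℝ, (∀ i, θ i = 1 ∨ θ i = -1) ∧
      ∑ j ∈ s, (∑ i ∈ t, θ i * x i j) ^ 2 ≤ ∑ i ∈ t, ∑ j ∈ s, (x i j) ^ 2 := by
  classical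
  induction t using Finset.induction_on with
  | empty => exact ⟨fun _ => 1, fun _ => Or.inl rfl, by simp⟩
  | insert i0 t hi0 ih =>
    obtain ⟨θ, hθ, hle⟩ := ih
    obtain ⟨c, hc, hc2⟩ : ∃ c : ℝ, (c = 1 ∨ c = -1) ∧
        c * ∑ j ∈ s, (∑ i ∈ t, θ i * x i j) * x i0 j ≤ 0 := by
      rcases le_total (∑ j ∈ s, (∑ i ∈ t, θ i * x i j) * x i0 j) 0 with h | h
      · exact ⟨1, Or.inl rfl, by linarith⟩
      · exact ⟨-1, Or.inr rfl, by linarith⟩
    refine ⟨Function.update θ i0 c, ?_, ?_⟩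
    · intro i
      by_cases h : i = i0
      · subst h; rw [Function.update_self]; exact hc
      · rw [Function.update_of_ne h]; exact hθ i
    · have h1 : ∀ j, ∑ i ∈ insert i0 t, Function.update θ i0 c i * x i j
          = c * x i0 j + ∑ i ∈ t, θ i * x i j := by
        intro j
        rw [Finset.sum_insert hi0, Function.update_self]
        congr 1
        refine Finset.sum_congr rfl fun i hi => ?_
        rw [Function.update_of_ne (ne_of_mem_of_not_mem hi hi0)]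
      simp only [h1]
      rw [Finset.sum_insert hi0]
      have h2 : ∀ j, (c * x i0 j + ∑ i ∈ t, θ i * x i j) ^ 2
          = (x i0 j) ^ 2 + 2 * (c * ((∑ i ∈ t, θ i * x i j) * x i0 j))
            + (∑ i ∈ t, θ i * x i j) ^ 2 := by
        intro j
        have : c ^ 2 = 1 := by rcases hc with h | h <;> rw [h] <;> norm_num
        calc (c * x i0 j + ∑ i ∈ t, θ i * x i j) ^ 2
            = c ^ 2 * (x i0 j) ^ 2 + 2 * (c * ((∑ i ∈ t, θ i * x i j) * x i0 j))
              + (∑ i ∈ t, θ i * x i j) ^ 2 := by ring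
          _ = _ := by rw [this, one_mul]
      simp only [h2]
      rw [Finset.sum_add_distrib, Finset.sum_add_distrib, ← Finset.mul_sum, ← Finset.mul_sum]
      linarith

variable {X : Type*} [NormedAddCommGroup X] [NormedSpace ℝ X]

/-- finite combinations -/
noncomputable abbrev L (e : ℕ → X) : (ℕ →₀ ℝ) →ₗ[ℝ] X := Finsupp.linearCombination ℝ e

theorem L_eq (e : ℕ → X) (a : ℕ →₀ ℝ) (s : Finset ℕ) (h : a.support ⊆ s) :
    L e a = ∑ i ∈ s, a i • e i := by
  rw [L, Finsupp.linearCombination_apply, Finsupp.sum]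
  refine Finset.sum_subset h fun i _ hi => ?_
  rw [Finsupp.notMem_support_iff.1 hi, zero_smul]

/-- 1-unconditionality -/
def Unc (e : ℕ → X) : Prop :=
  ∀ (s : Finset ℕ) (a ε : ℕ → ℝ), (∀ n, ε n = 1 ∨ ε n = -1) →
    ‖∑ n ∈ s, (ε n * a n) • e n‖ ≤ ‖∑ n ∈ s, a n • e n‖

variable {e : ℕ → X}

theorem flip_le (hu : Unc e) (a b : ℕ →₀ ℝ) (h : ∀ i, b i = a i ∨ b i = - a i) :
    ‖L e b‖ ≤ ‖L e a‖ := by
  classical
  have hs : b.support ⊆ a.support := by
    intro i hi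
    rw [Finsupp.mem_support_iff] at hi ⊢
    rcases h i with h | h
    · rwa [h] at hi
    · intro h0; rw [h, h0] at hi; simp at hi
  rw [L_eq e b _ hs, L_eq e a _ (Finset.Subset.refl _)]
  have := hu a.support a (fun i => if b i = a i then 1 else -1) (fun n => by
    by_cases h : b n = a n
    · left; simp [h]
    · right; simp [h])
  refine le_trans (le_of_eq ?_) this
  congr 1
  refine Finset.sum_congr rfl fun i _ => ?_
  by_cases h1 : b i = a i
  · simp [h1]
  · rcases h i with h | h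
    · exact absurd h h1
    · rw [if_neg h1, h, neg_one_mul]

theorem filt_le (hu : Unc e) (a b : ℕ →₀ ℝ) (h : ∀ i, b i = a i ∨ b i = 0) :
    ‖L e b‖ ≤ ‖L e a‖ := by
  have h1 : ‖L e ((2 : ℝ) • b - a)‖ ≤ ‖L e a‖ := by
    refine flip_le hu _ _ fun i => ?_
    rw [Finsupp.sub_apply, Finsupp.smul_apply, smul_eq_mul]
    rcases h i with h | h
    · left; rw [h]; ring
    · right; rw [h]; ring
  have h2 : L e b = (1 / 2 : ℝ) • (L e ((2 : ℝ) • b - a) + L e a) := by
    rw [← map_add, sub_add_cancel, map_smul, smul_smul]; norm_num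
  rw [h2, norm_smul]
  have h3 := norm_add_le (L e ((2 : ℝ) • b - a)) (L e a)
  rw [Real.norm_eq_abs, abs_of_pos (by norm_num : (0 : ℝ) < 1 / 2)]
  linarith

/-- the seminorm associated with weights -/
noncomputable def F (w : ℕ → ℝ) (a : ℕ →₀ ℝ) : ℝ := ∑ i ∈ a.support, w i * |a i|

theorem F_eq (w : ℕ → ℝ) (a : ℕ →₀ ℝ) (s : Finset ℕ) (h : a.support ⊆ s) :
    F w a = ∑ i ∈ s, w i * |a i| := by
  rw [F]
  refine Finset.sum_subset h fun i _ hi => ?_
  rw [Finsupp.notMem_support_iff.1 hi, abs_zero, mul_zero]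

theorem F_add (w : ℕ → ℝ) (a b : ℕ →₀ ℝ) (h : ∀ i, a i = 0 ∨ b i = 0) :
    F w (a + b) = F w a + F w b := by
  classical
  rw [F_eq w (a + b) (a.support ∪ b.support) Finsupp.support_add,
    F_eq w a (a.support ∪ b.support) Finset.subset_union_left,
    F_eq w b (a.support ∪ b.support) Finset.subset_union_right, ← Finset.sum_add_distrib]
  refine Finset.sum_congr rfl fun i _ => ?_
  rw [Finsupp.add_apply]
  rcases h i with h | h <;> rw [h] <;> simp

theorem F_smul (w : ℕ → ℝ) (c : ℝ) (a : ℕ →₀ ℝ) : F w (c • a) = |c| * F w a := by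
  rw [F_eq w (c • a) a.support Finsupp.support_smul, F, Finset.mul_sum]
  refine Finset.sum_congr rfl fun i _ => ?_
  rw [Finsupp.smul_apply, smul_eq_mul, abs_mul]; ring

theorem F_flip (w : ℕ → ℝ) (a b : ℕ →₀ ℝ) (h : ∀ i, b i = a i ∨ b i = - a i) :
    F w b = F w a := by
  classical
  rw [F_eq w b (a.support ∪ b.support) Finset.subset_union_right,
    F_eq w a (a.support ∪ b.support) Finset.subset_union_left]
  refine Finset.sum_congr rfl fun i _ => ?_
  rcases h i with h | h <;> rw [h]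
  rw [abs_neg]

/-- weights of a finite set of functionals -/
noncomputable def wt (e : ℕ → X) (J : Finset (X →L[ℝ] ℝ)) (i : ℕ) : ℝ := ∑ f ∈ J, |f (e i)|

theorem wt_nonneg (J : Finset (X →L[ℝ] ℝ)) (i : ℕ) : 0 ≤ wt e J i :=
  Finset.sum_nonneg fun _ _ => abs_nonneg _

theorem abs_le_F (J : Finset (X →L[ℝ] ℝ)) {f : X →L[ℝ] ℝ} (hf : f ∈ J) (a : ℕ →₀ ℝ) :
    |f (L e a)| ≤ F (wt e J) a := by
  rw [L_eq e a _ (Finset.Subset.refl _), map_sum, F]
  refine (Finset.abs_sum_le_sum_abs _ _).trans (Finset.sum_le_sum fun i _ => ?_)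
  rw [map_smul, smul_eq_mul, abs_mul, mul_comm]
  refine mul_le_mul_of_nonneg_right ?_ (abs_nonneg _)
  exact Finset.single_le_sum (f := fun f : X →L[ℝ] ℝ => |f (e i)|) (fun _ _ => abs_nonneg _) hf

theorem F_le (hu : Unc e) (J : Finset (X →L[ℝ] ℝ)) (a : ℕ →₀ ℝ) :
    F (wt e J) a ≤ (∑ f ∈ J, ‖f‖) * ‖L e a‖ := by
  classical
  have h1 : F (wt e J) a = ∑ f ∈ J, ∑ i ∈ a.support, |f (e i)| * |a i| := by
    rw [Finset.sum_comm, F]
    refine Finset.sum_congr rfl fun i _ => ?_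
    rw [wt, Finset.sum_mul]
  rw [h1, Finset.sum_mul]
  refine Finset.sum_le_sum fun f _ => ?_
  let ε : ℕ → ℝ := fun i => if 0 ≤ a i * f (e i) then 1 else -1
  have hε : ∀ i, ε i = 1 ∨ ε i = -1 := fun i => by
    by_cases h : 0 ≤ a i * f (e i)
    · left; simp only [ε]; rw [if_pos h]
    · right; simp only [ε]; rw [if_neg h]
  have h2 := hu a.support a ε hε
  rw [← L_eq e a _ (Finset.Subset.refl _)] at h2
  have h3 : f (∑ n ∈ a.support, (ε n * a n) • e n) = ∑ i ∈ a.support, |f (e i)| * |a i| := by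
    rw [map_sum]
    refine Finset.sum_congr rfl fun i _ => ?_
    rw [map_smul, smul_eq_mul, ← abs_mul, mul_assoc, mul_comm (f (e i)) (a i)]
    by_cases h : 0 ≤ a i * f (e i)
    · simp only [ε]; rw [if_pos h, abs_of_nonneg h, one_mul]
    · simp only [ε]; rw [if_neg h, abs_of_neg (not_le.1 h), neg_one_mul]
  calc ∑ i ∈ a.support, |f (e i)| * |a i| = f (∑ n ∈ a.support, (ε n * a n) • e n) := h3.symm
    _ ≤ ‖f (∑ n ∈ a.support, (ε n * a n) • e n)‖ := le_abs_self _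
    _ ≤ ‖f‖ * ‖∑ n ∈ a.support, (ε n * a n) • e n‖ := f.le_opNorm _
    _ ≤ ‖f‖ * ‖L e a‖ := mul_le_mul_of_nonneg_left h2 (norm_nonneg _)

/-- Averaging: spreading a far away piece out. -/
theorem spread (hu : Unc e) (J : Finset (X →L[ℝ] ℝ)) (a : ℕ →₀ ℝ) (N₀ : ℕ)
    (hN₀ : ∀ i, N₀ ≤ i → a i = 0) (η : ℝ)
    (hT : ∀ N, N₀ ≤ N → ∀ δ : ℝ, 0 < δ → δ ≤ 1 → ∃ y : ℕ →₀ ℝ, (∀ i < N, y i = 0) ∧
      ‖L e (a + y)‖ ≤ 1 + δ ∧ η ≤ F (wt e J) y) (k : ℕ) :
    ∀ N, N₀ ≤ N → ∀ δ : ℝ, 0 < δ → δ ≤ 1 → ∃ y : ℕ →₀ ℝ, (∀ i < N, y i = 0) ∧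
      ‖L e (a + y)‖ ≤ 1 + δ ∧ η ≤ F (wt e J) y ∧
      ∀ i, wt e J i * |y i| ≤ (∑ f ∈ J, ‖f‖) * 2 / 2 ^ k := by
  induction k with
  | zero =>
    intro N hN δ hδ hδ1
    obtain ⟨y, hy1, hy2, hy3⟩ := hT N hN δ hδ hδ1
    refine ⟨y, hy1, hy2, hy3, fun i => ?_⟩
    have h1 : ‖L e y‖ ≤ 2 := by
      have : ‖L e y‖ ≤ ‖L e (a + y)‖ := by
        refine filt_le hu _ _ fun i => ?_
        rcases lt_or_ge i N with h | h
        · right; exact hy1 i h
        · left; rw [Finsupp.add_apply, hN₀ i (hN.trans h), zero_add]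
      linarith
    have h2 : wt e J i * |y i| ≤ F (wt e J) y := by
      by_cases hi : i ∈ y.support
      · exact Finset.single_le_sum (f := fun i => wt e J i * |y i|)
          (fun i _ => mul_nonneg (wt_nonneg J i) (abs_nonneg _)) hi
      · rw [Finsupp.notMem_support_iff.1 hi, abs_zero, mul_zero]
        exact Finset.sum_nonneg fun i _ => mul_nonneg (wt_nonneg J i) (abs_nonneg _)
    have h3 : (0 : ℝ) ≤ ∑ f ∈ J, ‖f‖ := Finset.sum_nonneg fun _ _ => norm_nonneg _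
    calc wt e J i * |y i| ≤ F (wt e J) y := h2
      _ ≤ (∑ f ∈ J, ‖f‖) * ‖L e y‖ := F_le hu J y
      _ ≤ (∑ f ∈ J, ‖f‖) * 2 := mul_le_mul_of_nonneg_left h1 h3
      _ = _ := by norm_num
  | succ k ih =>
    intro N hN δ hδ hδ1
    obtain ⟨y, hy1, hy2, hy3, hy4⟩ := ih N hN δ hδ hδ1
    obtain ⟨M, hM⟩ : ∃ M, ∀ i, M ≤ i → y i = 0 := by
      refine ⟨y.support.sup id + 1, fun i hi => ?_⟩
      by_contra h
      have := Finset.le_sup (f := id) (Finsupp.mem_support_iff.2 h)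
      simp only [id] at this
      omega
    obtain ⟨z, hz1, hz2, hz3, hz4⟩ := ih (max N M) (hN.trans (le_max_left _ _)) δ hδ hδ1
    have hdis : ∀ i, y i = 0 ∨ z i = 0 := fun i => by
      rcases lt_or_ge i (max N M) with h | h
      · right; exact hz1 i h
      · left; exact hM i ((le_max_right _ _).trans h)
    refine ⟨(1 / 2 : ℝ) • (y + z), ?_, ?_, ?_, ?_⟩
    · intro i hi
      rw [Finsupp.smul_apply, Finsupp.add_apply, hy1 i hi,
        hz1 i (lt_of_lt_of_le hi (le_max_left _ _))]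
      simp
    · have h1 : a + (1 / 2 : ℝ) • (y + z) = (1 / 2 : ℝ) • ((a + y) + (a + z)) := by
        rw [smul_add, smul_add, smul_add, smul_add]
        have : a = (1 / 2 : ℝ) • a + (1 / 2 : ℝ) • a := by rw [← add_smul]; norm_num
        nth_rewrite 1 [this]
        abel
      rw [h1, map_smul, map_add, norm_smul, Real.norm_eq_abs,
        abs_of_pos (by norm_num : (0 : ℝ) < 1 / 2)]
      have := norm_add_le (L e (a + y)) (L e (a + z))
      linarith
    · rw [F_smul, F_add _ _ _ hdis, abs_of_pos (by norm_num : (0 : ℝ) < 1 / 2)]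
      linarith
    · intro i
      rw [Finsupp.smul_apply, Finsupp.add_apply, smul_eq_mul, abs_mul,
        abs_of_pos (by norm_num : (0 : ℝ) < 1 / 2)]
      have h5 : wt e J i * |y i + z i| ≤ (∑ f ∈ J, ‖f‖) * 2 / 2 ^ k := by
        rcases hdis i with h | h
        · rw [h, zero_add]; exact hz4 i
        · rw [h, add_zero]; exact hy4 i
      calc wt e J i * (1 / 2 * |y i + z i|) = 1 / 2 * (wt e J i * |y i + z i|) := by ring
        _ ≤ 1 / 2 * ((∑ f ∈ J, ‖f‖) * 2 / 2 ^ k) := by linarith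
        _ = _ := by rw [pow_succ]; ring

end Pool.Agent.N311.PiB
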