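import Pool.Agent.N311.PiB.Core

/-!
Spaces with a 1-unconditional basis: coordinates, and the key lemma for the countable weak
pi-base of the ball.
-/

set_option autoImplicit false

open Filter Topology Metric

namespace Pool.Agent.N311.PiB

variable {X : Type*} [NormedAddCommGroup X] [NormedSpace ℝ X] {e : ℕ → X}

/-- every vector has a unique unconditionally convergent expansion -/
def UBasis (e : ℕ → X) : Prop := ∀ x : X, ∃! a : ℕ → ℝ, HasSum (fun n => a n • e n) x

/-- coordinates -/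
noncomputable def co (he : UBasis e) (x : X) : ℕ → ℝ := (he x).choose

theorem hasSum_co (he : UBasis e) (x : X) : HasSum (fun n => co he x n • e n) x :=
  (he x).choose_spec.1

theorem co_unique (he : UBasis e) {x : X} {a : ℕ → ℝ} (h : HasSum (fun n => a n • e n) x) :
    a = co he x := (he x).choose_spec.2 a h

theorem co_add (he : UBasis e) (x y : X) : co he (x + y) = co he x + co he y := by
  refine (co_unique he ?_).symm
  have := (hasSum_co he x).add (hasSum_co he y)
  simpa only [Pi.add_apply, add_smul] using this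

theorem co_smul (he : UBasis e) (r : ℝ) (x : X) : co he (r • x) = r • co he x := by
  refine (co_unique he ?_).symm
  have := (hasSum_co he x).const_smul r
  simpa only [Pi.smul_apply, smul_smul, smul_eq_mul] using this

theorem co_L (he : UBasis e) (a : ℕ →₀ ℝ) : co he (L e a) = a := by
  refine (co_unique he ?_).symm
  rw [L_eq e a _ (Finset.Subset.refl _)]
  refine hasSum_sum_of_ne_finset_zero fun i hi => ?_
  rw [Finsupp.notMem_support_iff.1 hi, zero_smul]

theorem e_ne (he : UBasis e) (i : ℕ) : e i ≠ 0 := by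
  intro h
  have h1 := co_L he (Finsupp.single i 1)
  rw [L, Finsupp.linearCombination_single, one_smul, h] at h1
  have h2 := co_L he 0
  rw [map_zero] at h2
  have h3 : (Finsupp.single i (1 : ℝ) : ℕ →₀ ℝ) = 0 := by
    apply DFunLike.coe_injective
    rw [← h1, ← h2]
  rw [Finsupp.single_eq_zero] at h3
  exact one_ne_zero h3

/-- partial sums, as finitely supported families -/
noncomputable def P (he : UBasis e) (n : ℕ) (x : X) : ℕ →₀ ℝ :=
  Finsupp.onFinset (Finset.range n) (fun i => if i < n then co he x i else 0) (fun i hi => by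
    rw [Finset.mem_range]; by_contra h; exact hi (if_neg h))

theorem P_apply (he : UBasis e) (n : ℕ) (x : X) (i : ℕ) :
    P he n x i = if i < n then co he x i else 0 := rfl

theorem P_supp (he : UBasis e) (n : ℕ) (x : X) : (P he n x).support ⊆ Finset.range n := by
  intro i hi
  rw [Finsupp.mem_support_iff, P_apply] at hi
  rw [Finset.mem_range]; by_contra h; exact hi (if_neg h)

theorem L_P (he : UBasis e) (n : ℕ) (x : X) :
    L e (P he n x) = ∑ i ∈ Finset.range n, co he x i • e i := by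
  rw [L_eq e _ _ (P_supp he n x)]
  refine Finset.sum_congr rfl fun i hi => ?_
  rw [P_apply, if_pos (Finset.mem_range.1 hi)]

theorem tendsto_P (he : UBasis e) (x : X) : Tendsto (fun n => L e (P he n x)) atTop (𝓝 x) := by
  simp only [L_P]
  exact (hasSum_co he x).tendsto_sum_nat

theorem norm_finset_le (hu : Unc e) (he : UBasis e) (s : Finset ℕ) (x : X) :
    ‖∑ i ∈ s, co he x i • e i‖ ≤ ‖x‖ := by
  classical
  have h1 : Tendsto (fun t : Finset ℕ => ‖∑ i ∈ t, co he x i • e i‖) atTop (𝓝 ‖x‖) :=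
    (hasSum_co he x).norm
  refine ge_of_tendsto h1 ?_
  filter_upwards [eventually_ge_atTop s] with t ht
  let b : ℕ →₀ ℝ := Finsupp.onFinset t (fun i => if i ∈ t then co he x i else 0) (fun i hi => by
    by_contra h; exact hi (if_neg h))
  let a : ℕ →₀ ℝ := Finsupp.onFinset s (fun i => if i ∈ s then co he x i else 0) (fun i hi => by
    by_contra h; exact hi (if_neg h))
  have hb : ∀ i, b i = if i ∈ t then co he x i else 0 := fun i => rfl
  have ha : ∀ i, a i = if i ∈ s then co he x i else 0 := fun i => rfl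
  have hbs : b.support ⊆ t := by
    intro i hi; by_contra h; exact (Finsupp.mem_support_iff.1 hi) (by rw [hb, if_neg h])
  have has : a.support ⊆ s := by
    intro i hi; by_contra h; exact (Finsupp.mem_support_iff.1 hi) (by rw [ha, if_neg h])
  have h2 := filt_le hu b a (fun i => by
    rw [ha, hb]
    by_cases h : i ∈ s
    · left; rw [if_pos h, if_pos (ht h)]
    · right; rw [if_neg h])
  rw [L_eq e b t hbs, L_eq e a s has] at h2
  have h3 : ∑ i ∈ s, a i • e i = ∑ i ∈ s, co he x i • e i :=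
    Finset.sum_congr rfl fun i hi => by rw [ha, if_pos hi]
  have h4 : ∑ i ∈ t, b i • e i = ∑ i ∈ t, co he x i • e i :=
    Finset.sum_congr rfl fun i hi => by rw [hb, if_pos hi]
  rwa [h3, h4] at h2

theorem norm_P_le (hu : Unc e) (he : UBasis e) (n : ℕ) (x : X) : ‖L e (P he n x)‖ ≤ ‖x‖ := by
  rw [L_P]; exact norm_finset_le hu he _ x

theorem abs_co_le (hu : Unc e) (he : UBasis e) (x : X) (i : ℕ) :
    |co he x i| ≤ ‖e i‖⁻¹ * ‖x‖ := by
  have h1 := norm_finset_le hu he {i} x
  rw [Finset.sum_singleton, norm_smul, Real.norm_eq_abs] at h1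
  have h2 : 0 < ‖e i‖ := norm_pos_iff.2 (e_ne he i)
  rw [mul_comm, ← div_eq_mul_inv, le_div_iff₀ h2]
  exact h1

/-- coordinate functionals -/
noncomputable def coF (hu : Unc e) (he : UBasis e) (i : ℕ) : X →L[ℝ] ℝ :=
  LinearMap.mkContinuous
    { toFun := fun x => co he x i
      map_add' := fun x y => by rw [co_add]; rfl
      map_smul' := fun c x => by rw [co_smul]; rfl } ‖e i‖⁻¹
    (fun x => abs_co_le hu he x i)

theorem coF_apply (hu : Unc e) (he : UBasis e) (i : ℕ) (x : X) : coF hu he i x = co he x i := rfl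

theorem key (hu : Unc e) (he : UBasis e) (J : Finset (X →L[ℝ] ℝ)) (x0 : X) (hx0 : ‖x0‖ ≤ 1)
    {ε : ℝ} (hε : 0 < ε) :
    ∃ (a : ℕ →₀ ℝ) (N : ℕ) (δ : ℝ), 0 < δ ∧ ‖L e a‖ ≤ 1 ∧
      ∀ x : X, ‖x‖ ≤ 1 → (∀ i < N, |co he x i - a i| < δ) → ∀ f ∈ J, |f x - f x0| < ε := by
  classical
  set K : ℝ := ∑ f ∈ J, ‖f‖ with hK
  have hK0 : 0 ≤ K := Finset.sum_nonneg fun _ _ => norm_nonneg _
  have hfK : ∀ f ∈ J, ‖f‖ ≤ K := fun f hf =>
    Finset.single_le_sum (f := fun f : X →L[ℝ] ℝ => ‖f‖) (fun _ _ => norm_nonneg _) hf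
  set A : Set (ℕ →₀ ℝ) := {a | ‖L e a‖ ≤ 1 ∧ ∀ f ∈ J, |f (L e a) - f x0| < ε / 2} with hA
  have hAne : A.Nonempty := by
    have h1 : ∀ f ∈ J, ∀ᶠ n in atTop, |f (L e (P he n x0)) - f x0| < ε / 2 := by
      intro f _
      have h2 : Tendsto (fun n => f (L e (P he n x0))) atTop (𝓝 (f x0)) :=
        (f.continuous.tendsto x0).comp (tendsto_P he x0)
      have h3 := (Metric.tendsto_atTop.1 h2 (ε / 2) (by positivity))
      obtain ⟨n0, hn0⟩ := h3
      filter_upwards [eventually_ge_atTop n0] with n hn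
      have := hn0 n hn
      rwa [Real.dist_eq] at this
    have h2 : ∀ᶠ n in atTop, ∀ f ∈ J, |f (L e (P he n x0)) - f x0| < ε / 2 :=
      (Filter.eventually_all_finset J).2 h1
    obtain ⟨n, hn⟩ := h2.exists
    exact ⟨P he n x0, (norm_P_le hu he n x0).trans hx0, hn⟩
  have hbdd : BddAbove (F (wt e J) '' A) := by
    refine ⟨K, ?_⟩
    rintro _ ⟨a, ha, rfl⟩
    calc F (wt e J) a ≤ K * ‖L e a‖ := F_le hu J a
      _ ≤ K * 1 := mul_le_mul_of_nonneg_left ha.1 hK0
      _ = K := mul_one K
  set S : ℝ := sSup (F (wt e J) '' A) with hS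
  have hSK : S ≤ K := by
    refine csSup_le (hAne.image _) ?_
    rintro _ ⟨a, ha, rfl⟩
    calc F (wt e J) a ≤ K * ‖L e a‖ := F_le hu J a
      _ ≤ K * 1 := mul_le_mul_of_nonneg_left ha.1 hK0
      _ = K := mul_one K
  obtain ⟨_, ⟨a, haA, rfl⟩, haS⟩ := exists_lt_of_lt_csSup (hAne.image (F (wt e J)))
    (show S - ε / 8 < S by linarith)
  obtain ⟨N₀, hN₀⟩ : ∃ M, ∀ i, M ≤ i → a i = 0 := by
    refine ⟨a.support.sup id + 1, fun i hi => ?_⟩
    by_contra h
    have := Finset.le_sup (f := id) (Finsupp.mem_support_iff.2 h)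
    simp only [id] at this
    omega
  by_contra hcon
  push Not at hcon
  -- far away pieces
  have hT : ∀ N, N₀ ≤ N → ∀ δ : ℝ, 0 < δ → δ ≤ 1 → ∃ y : ℕ →₀ ℝ, (∀ i < N, y i = 0) ∧
      ‖L e (a + y)‖ ≤ 1 + δ ∧ ε / 4 ≤ F (wt e J) y := by
    intro N hN δ hδ _
    set EN : ℝ := ∑ i ∈ Finset.range N, ‖e i‖ with hEN
    have hEN0 : 0 ≤ EN := Finset.sum_nonneg fun _ _ => norm_nonneg _
    set δ' : ℝ := min δ (ε / 8 / (K + 1)) with hδ'
    have hδ'0 : 0 < δ' := lt_min hδ (by positivity)
    obtain ⟨x, hx1, hx2, f, hfJ, hf⟩ := hcon a N (δ' / (EN + 1)) (by positivity) haA.1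
    have h1 : Tendsto (fun n => f (L e (P he n x))) atTop (𝓝 (f x)) :=
      (f.continuous.tendsto x).comp (tendsto_P he x)
    obtain ⟨M0, hM0⟩ := Metric.tendsto_atTop.1 h1 (ε / 8) (by positivity)
    set M : ℕ := max M0 N with hM
    have hM1 := hM0 M (le_max_left _ _)
    rw [Real.dist_eq] at hM1
    let y : ℕ →₀ ℝ := P he M x - P he N x
    have hNM : N ≤ M := le_max_right _ _
    have hy : ∀ i, y i = if i < N then 0 else (if i < M then co he x i else 0) := by
      intro i
      simp only [y]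
      rw [Finsupp.sub_apply, P_apply, P_apply]
      by_cases hi : i < N
      · rw [if_pos hi, if_pos hi, if_pos (lt_of_lt_of_le hi hNM), sub_self]
      · rw [if_neg hi, if_neg hi, sub_zero]
    have hnorm : ‖L e (a - P he N x)‖ ≤ δ' := by
      have hsupp : (a - P he N x).support ⊆ Finset.range N := by
        intro i hi
        rw [Finsupp.mem_support_iff, Finsupp.sub_apply, P_apply] at hi
        rw [Finset.mem_range]
        by_contra h
        rw [if_neg h, hN₀ i (hN.trans (not_lt.1 h)), sub_zero] at hi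
        exact hi rfl
      rw [L_eq e _ _ hsupp]
      calc ‖∑ i ∈ Finset.range N, (a - P he N x) i • e i‖
          ≤ ∑ i ∈ Finset.range N, δ' / (EN + 1) * ‖e i‖ := by
            refine (norm_sum_le _ _).trans (Finset.sum_le_sum fun i hi => ?_)
            rw [norm_smul, Real.norm_eq_abs, Finsupp.sub_apply, P_apply,
              if_pos (Finset.mem_range.1 hi), abs_sub_comm]
            exact mul_le_mul_of_nonneg_right (hx2 i (Finset.mem_range.1 hi)).le (norm_nonneg _)
        _ = δ' / (EN + 1) * EN := by rw [← Finset.mul_sum]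
        _ ≤ δ' := by
            rw [div_mul_eq_mul_div, div_le_iff₀ (by positivity)]
            nlinarith
    refine ⟨y, fun i hi => by rw [hy, if_pos hi], ?_, ?_⟩
    · have h2 : a + y = P he M x + (a - P he N x) := by simp only [y]; abel
      rw [h2, map_add]
      have h3 := norm_add_le (L e (P he M x)) (L e (a - P he N x))
      have h4 := norm_P_le hu he M x
      have h5 : δ' ≤ δ := min_le_left _ _
      linarith
    · have h2 := abs_le_F (e := e) J hfJ y
      have h3 : f (L e y) = f (L e (P he M x)) - f (L e (P he N x)) := by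
        simp only [y]; rw [map_sub, map_sub]
      have h4 : |f (L e a) - f (L e (P he N x))| ≤ ε / 8 := by
        rw [← map_sub, ← map_sub]
        calc |f (L e (a - P he N x))| ≤ ‖f‖ * ‖L e (a - P he N x)‖ := f.le_opNorm _
          _ ≤ K * δ' := mul_le_mul (hfK f hfJ) hnorm (norm_nonneg _) hK0
          _ ≤ K * (ε / 8 / (K + 1)) := mul_le_mul_of_nonneg_left (min_le_right _ _) hK0
          _ ≤ ε / 8 := by
              rw [mul_div_assoc', div_le_iff₀ (by positivity)]
              nlinarith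
      have h5 := haA.2 f hfJ
      have h6 : f x - f x0 = -(f (L e (P he M x)) - f x) + f (L e y)
          - (f (L e a) - f (L e (P he N x))) + (f (L e a) - f x0) := by rw [h3]; ring
      have h7 : |f x - f x0| ≤ |f (L e (P he M x)) - f x| + |f (L e y)|
          + |f (L e a) - f (L e (P he N x))| + |f (L e a) - f x0| := by
        rw [h6]
        calc _ ≤ |-(f (L e (P he M x)) - f x) + f (L e y)
              - (f (L e a) - f (L e (P he N x)))| + |f (L e a) - f x0| := abs_add_le _ _
          _ ≤ |-(f (L e (P he M x)) - f x) + f (L e y)|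
              + |f (L e a) - f (L e (P he N x))| + |f (L e a) - f x0| := by
              gcongr; exact abs_sub _ _
          _ ≤ _ := by
              have := abs_add_le (-(f (L e (P he M x)) - f x)) (f (L e y))
              rw [abs_neg] at this
              linarith
      linarith
  -- the gap
  obtain ⟨g, hg0, hg⟩ : ∃ g : ℝ, 0 < g ∧ ∀ f ∈ J, |f (L e a) - f x0| + g ≤ ε / 2 := by
    by_cases hne : J.Nonempty
    · obtain ⟨f0, hf0, hmin⟩ := Finset.exists_min_image J
        (fun f => ε / 2 - |f (L e a) - f x0|) hne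
      refine ⟨ε / 2 - |f0 (L e a) - f0 x0|, by linarith [haA.2 f0 hf0], fun f hf => ?_⟩
      have := hmin f hf
      linarith
    · rw [Finset.not_nonempty_iff_eq_empty] at hne
      exact ⟨1, one_pos, by rw [hne]; simp⟩
  obtain ⟨k, hk⟩ : ∃ k : ℕ, 4 * K ^ 2 / 2 ^ k < (g / 4) ^ 2 := by
    have h1 : Tendsto (fun k : ℕ => 4 * K ^ 2 * (1 / 2 : ℝ) ^ k) atTop (𝓝 (4 * K ^ 2 * 0)) :=
      (tendsto_pow_atTop_nhds_zero_of_lt_one (by norm_num) (by norm_num)).const_mul _
    rw [mul_zero] at h1
    obtain ⟨k, hk⟩ := ((tendsto_order.1 h1).2 ((g / 4) ^ 2) (by positivity)).exists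
    refine ⟨k, ?_⟩
    rw [one_div, inv_pow, ← div_eq_mul_inv] at hk
    exact hk
  set δ : ℝ := min 1 (min (g / 4 / (K + 1)) (ε / 8 / (K + 1))) with hδ
  have hδ0 : 0 < δ := lt_min one_pos (lt_min (by positivity) (by positivity))
  have hδ1 : δ ≤ 1 := min_le_left _ _
  have hδK : δ * K ≤ g / 4 := by
    have h1 : δ ≤ g / 4 / (K + 1) := (min_le_right _ _).trans (min_le_left _ _)
    calc δ * K ≤ g / 4 / (K + 1) * K := mul_le_mul_of_nonneg_right h1 hK0
      _ ≤ g / 4 := by
        rw [div_mul_eq_mul_div, div_le_iff₀ (by positivity)]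
        nlinarith
  have hδK2 : δ * K ≤ ε / 8 := by
    have h1 : δ ≤ ε / 8 / (K + 1) := (min_le_right _ _).trans (min_le_right _ _)
    calc δ * K ≤ ε / 8 / (K + 1) * K := mul_le_mul_of_nonneg_right h1 hK0
      _ ≤ ε / 8 := by
        rw [div_mul_eq_mul_div, div_le_iff₀ (by positivity)]
        nlinarith
  obtain ⟨z, hz1, hz2, hz3, hz4⟩ := spread hu J a N₀ hN₀ (ε / 4) hT k N₀ le_rfl δ hδ0 hδ1
  obtain ⟨θ, hθ, hθ2⟩ := exists_signs J z.support (fun i (f : X →L[ℝ] ℝ) => z i * f (e i))
  let z' : ℕ →₀ ℝ := Finsupp.onFinset z.support (fun i => θ i * z i) (fun i hi => by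
    rw [Finsupp.mem_support_iff]; intro h; exact hi (by rw [h, mul_zero]))
  have hz' : ∀ i, z' i = θ i * z i := fun i => rfl
  have hz'2 : ∀ i, z' i = z i ∨ z' i = - z i := fun i => by
    rw [hz']
    rcases hθ i with h | h <;> rw [h]
    · left; ring
    · right; ring
  have hz'0 : ∀ i < N₀, z' i = 0 := fun i hi => by rw [hz', hz1 i hi, mul_zero]
  have hLz : ‖L e z‖ ≤ 2 := by
    have : ‖L e z‖ ≤ ‖L e (a + z)‖ := by
      refine filt_le hu _ _ fun i => ?_
      rcases lt_or_ge i N₀ with h | h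
      · right; exact hz1 i h
      · left; rw [Finsupp.add_apply, hN₀ i h, zero_add]
    linarith
  have hsmall : ∀ f ∈ J, |f (L e z')| < g / 4 := by
    intro f hf
    have h1 : f (L e z') = ∑ i ∈ z.support, θ i * (z i * f (e i)) := by
      have hs : z'.support ⊆ z.support := by
        intro i hi
        rw [Finsupp.mem_support_iff, hz'] at hi
        rw [Finsupp.mem_support_iff]
        intro h; exact hi (by rw [h, mul_zero])
      rw [L_eq e z' _ hs, map_sum]
      refine Finset.sum_congr rfl fun i _ => ?_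
      rw [map_smul, hz', smul_eq_mul, mul_assoc]
    have h2 : (f (L e z')) ^ 2 ≤ ∑ f ∈ J, (∑ i ∈ z.support, θ i * (z i * f (e i))) ^ 2 := by
      rw [h1]
      exact Finset.single_le_sum (f := fun f : X →L[ℝ] ℝ =>
        (∑ i ∈ z.support, θ i * (z i * f (e i))) ^ 2) (fun _ _ => sq_nonneg _) hf
    have h3 : ∑ i ∈ z.support, ∑ f ∈ J, (z i * f (e i)) ^ 2 ≤ 4 * K ^ 2 / 2 ^ k := by
      have h4 : ∀ i ∈ z.support, ∑ f ∈ J, (z i * f (e i)) ^ 2
          ≤ (K * 2 / 2 ^ k) * (wt e J i * |z i|) := by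
        intro i _
        have hw : wt e J i * |z i| = ∑ f ∈ J, |f (e i)| * |z i| := by rw [wt, Finset.sum_mul]
        rw [hw, Finset.mul_sum J]
        refine Finset.sum_le_sum fun f hf => ?_
        have h5 : |z i * f (e i)| ≤ K * 2 / 2 ^ k := by
          refine le_trans ?_ (hz4 i)
          rw [abs_mul, mul_comm]
          refine mul_le_mul_of_nonneg_right ?_ (abs_nonneg _)
          exact Finset.single_le_sum (f := fun f : X →L[ℝ] ℝ => |f (e i)|)
            (fun _ _ => abs_nonneg _) hf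
        calc (z i * f (e i)) ^ 2 = |z i * f (e i)| * |z i * f (e i)| := by
              rw [← sq, sq_abs]
          _ ≤ K * 2 / 2 ^ k * |z i * f (e i)| := mul_le_mul_of_nonneg_right h5 (abs_nonneg _)
          _ = K * 2 / 2 ^ k * (|f (e i)| * |z i|) := by rw [abs_mul, mul_comm |z i|]
      calc ∑ i ∈ z.support, ∑ f ∈ J, (z i * f (e i)) ^ 2
          ≤ ∑ i ∈ z.support, (K * 2 / 2 ^ k) * (wt e J i * |z i|) := Finset.sum_le_sum h4
        _ = (K * 2 / 2 ^ k) * F (wt e J) z := by rw [← Finset.mul_sum, F]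
        _ ≤ (K * 2 / 2 ^ k) * (K * 2) := by
            refine mul_le_mul_of_nonneg_left ?_ (by positivity)
            exact (F_le hu J z).trans (mul_le_mul_of_nonneg_left hLz hK0)
        _ = 4 * K ^ 2 / 2 ^ k := by ring
    exact abs_lt_of_sq_lt_sq (lt_of_le_of_lt (h2.trans (hθ2.trans h3)) hk) (by positivity)
  -- the new vector
  have h1δ : (0 : ℝ) < 1 + δ := by linarith
  set a1 : ℕ →₀ ℝ := (1 + δ)⁻¹ • (a + z') with ha1
  have hmem : a1 ∈ A := by
    refine ⟨?_, fun f hf => ?_⟩
    · rw [ha1, map_smul, norm_smul, Real.norm_eq_abs, abs_of_pos (inv_pos.2 h1δ),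
        inv_mul_le_iff₀ h1δ, mul_one]
      refine (flip_le hu (a + z) (a + z') fun i => ?_).trans hz2
      rw [Finsupp.add_apply, Finsupp.add_apply]
      rcases lt_or_ge i N₀ with h | h
      · left; rw [hz1 i h, hz'0 i h]
      · rw [hN₀ i h, zero_add, zero_add]; exact hz'2 i
    · have h2 : f (L e a1) = (1 + δ)⁻¹ * (f (L e a) + f (L e z')) := by
        rw [ha1, map_smul, map_smul, map_add, map_add, smul_eq_mul]
      have h3 : (1 + δ) * f (L e a1) = f (L e a) + f (L e z') := by
        rw [h2, ← mul_assoc, mul_inv_cancel₀ h1δ.ne', one_mul]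
      have h4 : |f (L e a)| ≤ K := by
        calc |f (L e a)| ≤ ‖f‖ * ‖L e a‖ := f.le_opNorm _
          _ ≤ K * 1 := mul_le_mul (hfK f hf) haA.1 (norm_nonneg _) hK0
          _ = K := mul_one K
      have h5 := hsmall f hf
      have h6 : |f (L e a1) - f (L e a)| ≤ |f (L e z')| + δ * |f (L e a)| := by
        have h7 : f (L e a1) - f (L e a) = (1 + δ)⁻¹ * (f (L e z') - δ * f (L e a)) := by
          rw [h2]; field_simp; ring
        rw [h7, abs_mul, abs_of_pos (inv_pos.2 h1δ)]
        have h8 : (1 + δ)⁻¹ ≤ 1 := inv_le_one_of_one_le₀ (by linarith)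
        calc (1 + δ)⁻¹ * |f (L e z') - δ * f (L e a)| ≤ 1 * |f (L e z') - δ * f (L e a)| :=
              mul_le_mul_of_nonneg_right h8 (abs_nonneg _)
          _ = |f (L e z') - δ * f (L e a)| := one_mul _
          _ ≤ |f (L e z')| + |δ * f (L e a)| := abs_sub _ _
          _ = |f (L e z')| + δ * |f (L e a)| := by rw [abs_mul, abs_of_pos hδ0]
      have h9 : δ * |f (L e a)| ≤ g / 4 := (mul_le_mul_of_nonneg_left h4 hδ0.le).trans hδK
      have h10 := hg f hf
      have h11 : |f (L e a1) - f x0| ≤ |f (L e a1) - f (L e a)| + |f (L e a) - f x0| := by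
        have := abs_add_le (f (L e a1) - f (L e a)) (f (L e a) - f x0)
        rwa [sub_add_sub_cancel] at this
      linarith
  have hle : F (wt e J) a1 ≤ S := le_csSup hbdd ⟨a1, hmem, rfl⟩
  have hF1 : F (wt e J) a1 = (1 + δ)⁻¹ * (F (wt e J) a + F (wt e J) z) := by
    rw [ha1, F_smul, abs_of_pos (inv_pos.2 h1δ), F_add, F_flip (wt e J) z z' hz'2]
    intro i
    rcases lt_or_ge i N₀ with h | h
    · right; exact hz'0 i h
    · left; exact hN₀ i h
  rw [hF1, inv_mul_le_iff₀ h1δ] at hle
  have h12 : δ * S ≤ δ * K := mul_le_mul_of_nonneg_left hSK hδ0.le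
  nlinarith

end Pool.Agent.N311.PiB
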