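import Pool.Agent.N311.PiB.Key

/-!
The closed unit ball of a Banach space with a 1-unconditional basis has a countable weak pi-base.
-/

set_option autoImplicit false

open Filter Topology Metric

namespace Pool.Agent.N311.PiB

theorem weak_nhds {X : Type*} [NormedAddCommGroup X] [NormedSpace ℝ X] {O : Set (WeakSpace ℝ X)}
    (hO : IsOpen O) {x0 : X} (hx : toWeakSpace ℝ X x0 ∈ O) :
    ∃ (I : Finset (X →L[ℝ] ℝ)) (ε : ℝ), 0 < ε ∧
      ∀ x : X, (∀ F ∈ I, |F x - F x0| < ε) → toWeakSpace ℝ X x ∈ O := by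
  classical
  have h1 : O ∈ 𝓝 (toWeakSpace ℝ X x0) := hO.mem_nhds hx
  have h2 : O ∈ Filter.comap (fun (x : WeakSpace ℝ X) (F : X →L[ℝ] ℝ) => F ((toWeakSpace ℝ X).symm x))
      (𝓝 (fun F : X →L[ℝ] ℝ => F x0)) := by
    have h3 := nhds_induced (fun (x : WeakSpace ℝ X) (F : X →L[ℝ] ℝ) =>
      F ((toWeakSpace ℝ X).symm x)) (toWeakSpace ℝ X x0)
    have h4 : O ∈ @nhds _ (TopologicalSpace.induced (fun (x : WeakSpace ℝ X) (F : X →L[ℝ] ℝ) =>
      F ((toWeakSpace ℝ X).symm x)) Pi.topologicalSpace) (toWeakSpace ℝ X x0) := h1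
    rw [h3] at h4
    exact h4
  rw [Filter.mem_comap] at h2
  obtain ⟨t, ht, hts⟩ := h2
  rw [nhds_pi, Filter.mem_pi] at ht
  obtain ⟨I, hI, r, hr, hsub⟩ := ht
  have h5 : ∀ F : X →L[ℝ] ℝ, ∃ δ : ℝ, 0 < δ ∧ ball (F x0) δ ⊆ r F := fun F =>
    Metric.mem_nhds_iff.1 (hr F)
  choose δ hδ hball using h5
  have h6 : ∃ ε : ℝ, 0 < ε ∧ ∀ F ∈ hI.toFinset, ε ≤ δ F := by
    by_cases hne : hI.toFinset.Nonempty
    · obtain ⟨F0, hF0, hmin⟩ := Finset.exists_min_image hI.toFinset δ hne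
      exact ⟨δ F0, hδ F0, hmin⟩
    · rw [Finset.not_nonempty_iff_eq_empty] at hne
      exact ⟨1, one_pos, by rw [hne]; simp⟩
  obtain ⟨ε, hε, hle⟩ := h6
  refine ⟨hI.toFinset, ε, hε, fun x hx => hts ?_⟩
  refine hsub ?_
  intro F hF
  refine hball F ?_
  rw [mem_ball, Real.dist_eq]
  have hF' : F ∈ hI.toFinset := hI.mem_toFinset.2 hF
  exact (hx F hF').trans_le (hle F hF')

theorem weak_continuous {X : Type*} [NormedAddCommGroup X] [NormedSpace ℝ X] (F : X →L[ℝ] ℝ) :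
    Continuous fun x : WeakSpace ℝ X => F ((toWeakSpace ℝ X).symm x) := by
  have h : Continuous fun (x : WeakSpace ℝ X) (F : X →L[ℝ] ℝ) => F ((toWeakSpace ℝ X).symm x) :=
    continuous_induced_dom
  exact (continuous_pi_iff.mp h) F

variable {X : Type*} [NormedAddCommGroup X] [NormedSpace ℝ X] {e : ℕ → X}

/-- basic boxes -/
def box (hu : Unc e) (he : UBasis e) (p : ℕ × (ℕ →₀ ℚ) × ℕ) : Set (WeakSpace ℝ X) :=
  {x | ∀ i < p.1, |coF hu he i ((toWeakSpace ℝ X).symm x) - (p.2.1 i : ℝ)| < 1 / ((p.2.2 : ℝ) + 1)}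

theorem box_open (hu : Unc e) (he : UBasis e) (p : ℕ × (ℕ →₀ ℚ) × ℕ) : IsOpen (box hu he p) := by
  have h : box hu he p = ⋂ i ∈ Finset.range p.1,
      {x : WeakSpace ℝ X | |coF hu he i ((toWeakSpace ℝ X).symm x) - (p.2.1 i : ℝ)|
        < 1 / ((p.2.2 : ℝ) + 1)} := by
    ext x
    simp [box]
  rw [h]
  refine isOpen_biInter_finset fun i _ => ?_
  refine isOpen_lt ?_ continuous_const
  exact ((weak_continuous (coF hu he i)).sub continuous_const).abs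

theorem exists_rat (a : ℕ →₀ ℝ) (N : ℕ) {δ : ℝ} (hδ : 0 < δ) :
    ∃ q : ℕ →₀ ℚ, ∀ i < N, |a i - (q i : ℝ)| < δ := by
  classical
  have h : ∀ i, ∃ r : ℚ, |a i - (r : ℝ)| < δ := fun i => by
    obtain ⟨r, hr⟩ := exists_rat_near (a i) hδ
    exact ⟨r, hr⟩
  choose r hr using h
  refine ⟨Finsupp.onFinset (Finset.range N) (fun i => if i < N then r i else 0) (fun i hi => by
    rw [Finset.mem_range]; by_contra h; exact hi (if_neg h)), fun i hi => ?_⟩
  rw [Finsupp.onFinset_apply, if_pos hi]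
  exact hr i

theorem main (hu : Unc e) (he : UBasis e) :
    ∃ U : ℕ → Set (WeakSpace ℝ X),
      (∀ n, IsOpen (U n) ∧
          (U n ∩ (toWeakSpace ℝ X) '' Metric.closedBall (0 : X) 1).Nonempty) ∧
      ∀ V : Set (WeakSpace ℝ X), IsOpen V →
        (V ∩ (toWeakSpace ℝ X) '' Metric.closedBall (0 : X) 1).Nonempty →
          ∃ n, U n ∩ (toWeakSpace ℝ X) '' Metric.closedBall (0 : X) 1 ⊆ V := by
  classical
  let G : Set (ℕ × (ℕ →₀ ℚ) × ℕ) :=
    {p | (box hu he p ∩ (toWeakSpace ℝ X) '' Metric.closedBall (0 : X) 1).Nonempty}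
  have hGne : Nonempty G := by
    refine ⟨⟨(0, 0, 0), ?_⟩⟩
    refine ⟨toWeakSpace ℝ X 0, ?_, ⟨0, by simp, rfl⟩⟩
    intro i hi
    exact absurd hi (Nat.not_lt_zero i)
  obtain ⟨g, hg⟩ := exists_surjective_nat G
  refine ⟨fun n => box hu he (g n).1, fun n => ⟨box_open hu he _, (g n).2⟩, ?_⟩
  rintro V hV ⟨_, hxV, x0, hx0, rfl⟩
  obtain ⟨J, ε, hε, hJ⟩ := weak_nhds hV hxV
  rw [Metric.mem_closedBall, dist_zero_right] at hx0
  obtain ⟨a, N, δ, hδ, ha1, ha⟩ := key hu he J x0 hx0 hε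
  obtain ⟨m, hm⟩ := exists_nat_one_div_lt (half_pos hδ)
  have hm0 : (0 : ℝ) < 1 / ((m : ℝ) + 1) := by positivity
  obtain ⟨q, hq⟩ := exists_rat a N hm0
  have hmem : (N, q, m) ∈ G := by
    refine ⟨toWeakSpace ℝ X (L e a), ?_, ⟨L e a, ?_, rfl⟩⟩
    · intro i hi
      have : coF hu he i ((toWeakSpace ℝ X).symm (toWeakSpace ℝ X (L e a))) = a i := by
        rw [LinearEquiv.symm_apply_apply, coF_apply, co_L]
      rw [this]
      exact hq i hi
    · rw [Metric.mem_closedBall, dist_zero_right]; exact ha1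
  obtain ⟨n, hn⟩ := hg ⟨(N, q, m), hmem⟩
  refine ⟨n, ?_⟩
  rintro _ ⟨hb, x, hx, rfl⟩
  refine hJ x (ha x ?_ ?_)
  · rwa [Metric.mem_closedBall, dist_zero_right] at hx
  · intro i hi
    have hb' : toWeakSpace ℝ X x ∈ box hu he (g n).1 := hb
    rw [hn] at hb'
    have h1 := hb' i hi
    have h2 : coF hu he i ((toWeakSpace ℝ X).symm (toWeakSpace ℝ X x)) = co he x i := by
      rw [LinearEquiv.symm_apply_apply, coF_apply]
    rw [h2] at h1
    have h3 := hq i hi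
    rw [abs_sub_comm] at h3
    have h4 := abs_add_le (co he x i - (q i : ℝ)) ((q i : ℝ) - a i)
    rw [sub_add_sub_cancel] at h4
    simp only at h1
    linarith

end Pool.Agent.N311.PiB
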